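import Pool.Agent.Q158.FlagsC

/-! Over every field, `m` complete flags of `K^d` may need as many vectors as over the reals, for
all large `d`. -/

namespace Pool.Agent.Results.MP_7b57dc_co.LowerBound

open Q158.Flags

/-- For every field `K`, every `m ≥ 1` and every `d ≥ 3 (m + 2)` there are `m` complete flags of
`K^d` such that every finite set of vectors which simultaneously generates them has at least
`μ(m, d)` elements; hence `μ(m, d) ≤ μ_K(m, d)`. -/
theorem result (K : Type*) [Field K] (m : ℕ) (hm : 1 ≤ m) (d : ℕ) (hd : 3 * (m + 2) ≤ d) :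
    (∃ U : Fin m → Fin (d + 1) → Submodule K (Fin d → K), (∀ j, IsCompleteFlag K (U j)) ∧
      ∀ S : Finset (Fin d → K), (∀ j, Generates K (S : Set (Fin d → K)) (U j)) →
        mu m d ≤ S.card) ∧
    mu m d ≤ muField K m d :=
  ⟨needs_mu K m hm d hd, le_muField K m d _ (needs_mu K m hm d hd)⟩

end Pool.Agent.Results.MP_7b57dc_co.LowerBound
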